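import Mathlib

/-!
A countably compact Hausdorff group is a dense subgroup of a compact Hausdorff group.
-/

namespace Pool.Agent.Lib.CompactGroup

open Filter Topology Set

universe u

variable {G : Type u} [Group G] [TopologicalSpace G] [IsTopologicalGroup G]

theorem precompact [CountablyCompactSpace G] {U : Set G} (hU : U ∈ 𝓝 (1 : G)) :
    ∃ t : Set G, t.Finite ∧ ∀ x, ∃ y ∈ t, x * y⁻¹ ∈ U := by
  by_contra hcon
  push Not at hcon
  obtain ⟨x, hx⟩ := exists_seq_of_forall_finset_exists (fun _ : G => True)
    (fun y x => x * y⁻¹ ∉ U) fun s _ => (hcon s s.finite_toSet).imp fun x hx => ⟨trivial, hx⟩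
  obtain ⟨V, hV, hV'⟩ := exists_nhds_split_inv hU
  obtain ⟨a, -, ha⟩ := isCountablyCompact_iff_seq_clusterPt.1
    CountablyCompactSpace.isCountablyCompact_univ x (Eventually.of_forall fun _ => trivial)
  have h1 := mapClusterPt_iff_frequently.1 ha ((fun y => y * a⁻¹) ⁻¹' V)
    ((continuous_mul_const a⁻¹).continuousAt.preimage_mem_nhds (by simpa using hV))
  obtain ⟨m, hm⟩ := h1.exists
  obtain ⟨n, hn, hn'⟩ := (h1.and_eventually (eventually_gt_atTop m)).exists
  exact hx.2 m n hn' (by simpa [div_eq_mul_inv, mul_assoc] using hV' _ hn _ hm)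

theorem eventually_conj [CountablyCompactSpace G] {U : Set G} (hU : U ∈ 𝓝 (1 : G)) :
    ∀ᶠ w in 𝓝 (1 : G), ∀ g, g * w * g⁻¹ ∈ U := by
  obtain ⟨V, hV, hV'⟩ := exists_nhds_split_inv hU
  obtain ⟨W, hW, hW'⟩ := exists_nhds_one_split hV
  obtain ⟨t, ht, ht'⟩ := precompact (inter_mem hV hW)
  have : ∀ᶠ w in 𝓝 (1 : G), ∀ y ∈ t, y * w * y⁻¹ ∈ W := (eventually_all_finite ht).2 fun y _ =>
    (IsTopologicalGroup.continuous_conj y).continuousAt.preimage_mem_nhds (by simpa using hW)
  filter_upwards [this] with w hw g
  obtain ⟨y, hy, hy'⟩ := ht' g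
  simpa [div_eq_mul_inv, mul_assoc] using hV' _ (hW' _ hy'.2 _ (hw y hy)) _ hy'.1

theorem exists_completion (G : Type u) [Group G] [TopologicalSpace G] [IsTopologicalGroup G]
    [T2Space G] [CountablyCompactSpace G] :
    ∃ (K : Type u) (_ : Group K) (_ : TopologicalSpace K) (_ : IsTopologicalGroup K)
      (_ : CompactSpace K) (_ : T2Space K) (ι : G →* K), IsEmbedding ι ∧ DenseRange ι := by
  let _ := IsTopologicalGroup.rightUniformSpace G
  have : IsRightUniformGroup G := ⟨rfl⟩
  have : IsLeftUniformGroup G := ⟨by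
    change comap (fun p : G × G => p.2 * p.1⁻¹) (𝓝 1) = _
    refine le_antisymm (tendsto_iff_comap.1 fun U hU => ?_) (tendsto_iff_comap.1 fun U hU => ?_)
    · exact mem_map.2 (mem_of_superset (preimage_mem_comap (eventually_conj hU)) fun p hp => by
        simpa [mul_assoc] using hp p.1⁻¹)
    · exact mem_map.2 (mem_of_superset (preimage_mem_comap (eventually_conj hU)) fun p hp => by
        simpa [mul_assoc] using hp p.1)⟩
  have : IsUniformGroup G := .of_left_right
  have : IsUniformAddGroup (Additive G) := ⟨uniformContinuous_div (α := G)⟩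
  have htb : TotallyBounded (univ : Set (Additive G)) := by
    change TotallyBounded (univ : Set G)
    intro s hs
    obtain ⟨U, hU, hU'⟩ := mem_comap.1 (symm_le_uniformity hs)
    obtain ⟨t, ht, ht'⟩ := precompact hU
    refine ⟨t, ht, fun x _ => ?_⟩
    obtain ⟨y, hy, hy'⟩ := ht' x
    exact mem_biUnion hy (hU' (a := (y, x)) hy')
  have : CompactSpace (UniformSpace.Completion (Additive G)) := ⟨by
    refine isCompact_iff_totallyBounded_isComplete.2 ⟨?_, isComplete_univ⟩
    rw [← UniformSpace.Completion.denseRange_coe.closure_range, ← image_univ]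
    exact (htb.image (UniformSpace.Completion.uniformContinuous_coe _)).closure⟩
  have : T0Space (Additive G) := inferInstanceAs (T0Space G)
  exact ⟨Multiplicative (UniformSpace.Completion (Additive G)), inferInstance, inferInstance,
    inferInstance, inferInstance, inferInstanceAs (T2Space (UniformSpace.Completion (Additive G))),
    (UniformSpace.Completion.toCompl (α := Additive G)).toMultiplicativeRight,
    (UniformSpace.Completion.isUniformEmbedding_coe (Additive G)).isEmbedding,
    UniformSpace.Completion.denseRange_coe (α := Additive G)⟩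

end Pool.Agent.Lib.CompactGroup
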