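import Pool.Agent.Lib.CompactGroup.Unitary

/-!
Kernels of representations of compact groups, profinite subgroups, maximal independent families of
closed subgroups.
-/

namespace Pool.Agent.Lib.CompactGroup

open Filter Topology Set

universe u

variable {K : Type u} [Group K] [TopologicalSpace K]

/-- `M` has no small subgroups modulo `P` -/
def NSS (M P : Subgroup K) : Prop :=
  ∃ W ∈ 𝓝 (1 : K), ∀ y ∈ M, (∀ n : ℕ, ∃ p ∈ P, y ^ n * p ∈ W) → y ∈ P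

theorem NSS.of_hom {A : Type*} [NormedRing A] [NormedAlgebra ℝ A] {M P : Subgroup K}
    {f : M →* A} (hf : Continuous f) (hP : ∀ y : M, (y : K) ∈ P ↔ f y = 1) (hPM : P ≤ M) :
    NSS M P := by
  have h1 : {y : M | ‖f y - 1‖ < 1 / 2} ∈ 𝓝 (1 : M) :=
    (isOpen_lt (by fun_prop) continuous_const).mem_nhds (by simp)
  obtain ⟨W, hW, hW'⟩ := (mem_nhds_subtype _ _ _).1 h1
  refine ⟨W, hW, fun y hy h => (hP ⟨y, hy⟩).2 (eq_one_of_pow fun n => ?_)⟩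
  obtain ⟨p, hp, hp'⟩ := h n
  have h2 : ‖f (⟨y, hy⟩ ^ n * ⟨p, hPM hp⟩) - 1‖ < 1 / 2 := hW' hp'
  rw [map_mul, (hP ⟨p, hPM hp⟩).1 hp, mul_one, map_pow] at h2
  exact h2.le

theorem NSS.inf {M P Q : Subgroup K} (hP : NSS M P) (hQ : NSS M Q) : NSS M (P ⊓ Q) := by
  obtain ⟨W, hW, h1⟩ := hP
  obtain ⟨W', hW', h2⟩ := hQ
  exact ⟨W ∩ W', inter_mem hW hW', fun y hy h =>
    ⟨h1 y hy fun n => let ⟨p, hp, hp'⟩ := h n; ⟨p, hp.1, hp'.1⟩,
     h2 y hy fun n => let ⟨p, hp, hp'⟩ := h n; ⟨p, hp.2, hp'.2⟩⟩⟩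

theorem NSS.sInf {M : Subgroup K} {J : Set (Subgroup K)} (hJ : J.Finite) (h : ∀ P ∈ J, NSS M P) :
    NSS M (M ⊓ sInf J) := by
  induction J, hJ using Set.Finite.induction_on with
  | empty => exact ⟨univ, univ_mem, fun y hy _ => by simpa using hy⟩
  | insert _ _ ih =>
    rw [sInf_insert, inf_left_comm]
    exact (h _ (mem_insert _ _)).inf (ih fun P hP => h P (mem_insert_of_mem _ hP))

/-- kernels of representations -/
structure Ker (N : Subgroup K) : Prop where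
  normal : N.Normal
  zero : ∃ φ : C(K, ℝ), ∀ x, x ∈ N ↔ φ x = 0
  nss : NSS ⊤ N

theorem Ker.isClosed {N : Subgroup K} (h : Ker N) : IsClosed (N : Set K) := by
  obtain ⟨φ, hφ⟩ := h.zero
  have : (N : Set K) = {x | φ x = 0} := Set.ext hφ
  rw [this]
  exact isClosed_eq φ.continuous continuous_const

theorem Ker.inf {N N' : Subgroup K} (h : Ker N) (h' : Ker N') : Ker (N ⊓ N') := by
  obtain ⟨φ, hφ⟩ := h.zero
  obtain ⟨ψ, hψ⟩ := h'.zero
  have := h.normal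
  have := h'.normal
  refine ⟨inferInstance, ⟨φ ^ 2 + ψ ^ 2, fun x => ?_⟩, h.nss.inf h'.nss⟩
  simp [hφ, hψ, add_eq_zero_iff_of_nonneg (sq_nonneg (φ x)) (sq_nonneg (ψ x))]

theorem ker_top : Ker (⊤ : Subgroup K) :=
  ⟨inferInstance, ⟨0, by simp⟩, univ, univ_mem, fun _ _ _ => trivial⟩

theorem Ker.sInf {J : Set (Subgroup K)} (hJ : J.Finite) (h : ∀ P ∈ J, Ker P) : Ker (sInf J) := by
  induction J, hJ using Set.Finite.induction_on with
  | empty => rw [sInf_empty]; exact ker_top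
  | insert _ _ ih =>
    rw [sInf_insert]
    exact (h _ (mem_insert _ _)).inf (ih fun P hP => h P (mem_insert_of_mem _ hP))

theorem Ker.of_hom {A : Type*} [NormedRing A] [NormedAlgebra ℝ A] {f : K →* A}
    (hf : Continuous f) : Ker f.ker :=
  ⟨inferInstance, ⟨⟨fun x => ‖f x - 1‖, by fun_prop⟩, fun x => by simp [sub_eq_zero]⟩,
    NSS.of_hom (f := f.comp (⊤ : Subgroup K).subtype) (hf.comp continuous_subtype_val)
      (fun _ => Iff.rfl) le_top⟩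

theorem isClosed_inf_sInf {M : Subgroup K} (hM : IsClosed (M : Set K)) {J : Set (Subgroup K)}
    (h : ∀ P ∈ J, IsClosed (P : Set K)) : IsClosed ((M ⊓ sInf J : Subgroup K) : Set K) := by
  rw [Subgroup.coe_inf, Subgroup.coe_sInf]
  exact hM.inter (isClosed_biInter h)

omit [TopologicalSpace K] in
theorem normal_inf_sInf {M : Subgroup K} (hM : M.Normal) {J : Set (Subgroup K)}
    (h : ∀ P ∈ J, P.Normal) : (M ⊓ sInf J).Normal :=
  ⟨fun x hx g => ⟨hM.conj_mem x hx.1 g, Subgroup.mem_sInf.2 fun P hP =>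
    (h P hP).conj_mem x (Subgroup.mem_sInf.1 hx.2 P hP) g⟩⟩

omit [TopologicalSpace K] in
theorem finite_of_relIndex {U D : Subgroup K} (h : U.relIndex D ≠ 0)
    (hf : ((U ⊓ D : Subgroup K) : Set K).Finite) : (D : Set K).Finite := by
  have h1 : Finite (U ⊓ D : Subgroup K) := hf
  have h2 : Finite (U.subgroupOf D) := by
    rw [← Subgroup.inf_subgroupOf_right]
    exact Finite.of_equiv _ (Subgroup.subgroupOfEquivOfLe inf_le_right).symm.toEquiv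
  exact (Subgroup.finite_iff_finite_and_finiteIndex (U.subgroupOf D)).2 ⟨h2, ⟨h⟩⟩

variable [IsTopologicalGroup K]

theorem NSS.mem_nhdsWithin {M P D : Subgroup K} (h : NSS M P) (hD : D ≤ M) {e : ℕ} (he : 0 < e)
    (hp : ∀ y ∈ D, y ^ e ∈ P) : (P : Set K) ∈ 𝓝[D] 1 := by
  obtain ⟨W, hW, h⟩ := h
  have h1 : ∀ᶠ y in 𝓝 (1 : K), ∀ j ∈ Finset.range e, y ^ j ∈ W :=
    (eventually_all_finset _).2 fun j _ =>
      (continuous_pow j).continuousAt.preimage_mem_nhds (by simpa using hW)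
  filter_upwards [mem_nhdsWithin_of_mem_nhds h1, self_mem_nhdsWithin] with y hy hyD
  refine h y (hD hyD) fun n => ⟨((y ^ e) ^ (n / e))⁻¹, P.inv_mem (P.pow_mem (hp y hyD) _), ?_⟩
  have : y ^ n * ((y ^ e) ^ (n / e))⁻¹ = y ^ (n % e) := by
    rw [mul_inv_eq_iff_eq_mul, ← pow_mul, ← pow_add, Nat.mod_add_div]
  rw [this]
  exact hy _ (Finset.mem_range.2 (Nat.mod_lt _ he))

theorem isOpen_subgroupOf {U D : Subgroup K} (h : (U : Set K) ∈ 𝓝[D] 1) :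
    IsOpen (U.subgroupOf D : Set D) :=
  Subgroup.isOpen_of_mem_nhds _ (g := 1) (preimage_coe_mem_nhds_subtype.2 h)

theorem isClosed_inf_of_nhds {U D : Subgroup K} (hD : IsClosed (D : Set K))
    (h : (U : Set K) ∈ 𝓝[D] 1) : IsClosed ((U ⊓ D : Subgroup K) : Set K) := by
  rw [← Subgroup.subgroupOf_map_subtype, Subgroup.coe_map]
  exact hD.isClosedEmbedding_subtypeVal.isClosedMap _
    (Subgroup.isClosed_of_isOpen (U.subgroupOf D) (isOpen_subgroupOf h))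

theorem mem_nhdsWithin_of_relIndex {U D : Subgroup K} (hU : IsClosed (U : Set K))
    (h : U.relIndex D ≠ 0) : (U : Set K) ∈ 𝓝[D] 1 := by
  have : (U.subgroupOf D).FiniteIndex := ⟨h⟩
  exact preimage_coe_mem_nhds_subtype.1 (((U.subgroupOf D).isOpen_of_isClosed_of_finiteIndex
    (hU.preimage continuous_subtype_val)).mem_nhds (x := (1 : D)) (Subgroup.one_mem _))

/-- profinite subgroups -/
def PF (D : Subgroup K) : Prop := ∀ N : Subgroup K, Ker N → (N : Set K) ∈ 𝓝[D] 1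

omit [IsTopologicalGroup K] in
theorem PF.mono {D D' : Subgroup K} (h : PF D) (hle : D' ≤ D) : PF D' := fun N hN =>
  nhdsWithin_mono _ hle (h N hN)

theorem PF.of_exp {D : Subgroup K} (h : ∀ N, Ker N → ∃ e, 0 < e ∧ ∀ y ∈ D, y ^ e ∈ N) : PF D :=
  fun N hN => let ⟨_, he, hp⟩ := h N hN; hN.nss.mem_nhdsWithin le_top he hp

variable [CompactSpace K]

theorem relIndex_ne_zero {U D : Subgroup K} (hD : IsClosed (D : Set K))
    (h : (U : Set K) ∈ 𝓝[D] 1) : U.relIndex D ≠ 0 := by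
  have : CompactSpace D := isCompact_iff_compactSpace.1 hD.isCompact
  have := Subgroup.quotient_finite_of_isOpen _ (isOpen_subgroupOf h)
  exact Subgroup.index_ne_zero_of_finite

omit [IsTopologicalGroup K] in
theorem exists_subset_of_directed {S : Set (Subgroup K)} (hne : S.Nonempty)
    (hd : ∀ P ∈ S, ∀ Q ∈ S, ∃ R ∈ S, R ≤ P ∧ R ≤ Q) (hc : ∀ P ∈ S, IsClosed (P : Set K))
    (h1 : ∀ x, (∀ P ∈ S, x ∈ P) → x = 1) {W : Set K} (hW : W ∈ 𝓝 (1 : K)) :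
    ∃ P ∈ S, (P : Set K) ⊆ W := by
  have := hne.to_subtype
  obtain ⟨P, hP⟩ := exists_subset_nhds_of_compactSpace (V := fun P : S => (P.1 : Set K))
    (fun P Q => let ⟨R, hR, h⟩ := hd _ P.2 _ Q.2; ⟨⟨R, hR⟩, h⟩) (fun P => hc _ P.2) (U := W)
    fun x hx => by rwa [h1 x fun P hP => mem_iInter.1 hx ⟨P, hP⟩]
  exact ⟨P, P.2, hP⟩

omit [IsTopologicalGroup K] in
theorem eventually_le_ker {N : ℕ → Subgroup K} (ha : Antitone N)
    (hc : ∀ n, IsClosed (N n : Set K)) (h1 : ∀ x, (∀ n, x ∈ N n) → x = 1) {U : Subgroup K}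
    (hU : Ker U) : ∀ᶠ n in atTop, N n ≤ U := by
  obtain ⟨W, hW, h⟩ := hU.nss
  obtain ⟨_, ⟨m, rfl⟩, hm⟩ := exists_subset_of_directed (range_nonempty N)
    (by
      rintro _ ⟨a, rfl⟩ _ ⟨b, rfl⟩
      exact ⟨_, ⟨max a b, rfl⟩, ha (le_max_left _ _), ha (le_max_right _ _)⟩)
    (by rintro _ ⟨a, rfl⟩; exact hc a) (fun x hx => h1 x fun n => hx _ ⟨n, rfl⟩) hW
  filter_upwards [eventually_ge_atTop m] with n hn y hy
  exact h y trivial fun k => ⟨1, U.one_mem, by simpa using hm ((N m).pow_mem (ha hn hy) k)⟩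

theorem PF.of_small {D : Subgroup K} (hD : IsClosed (D : Set K))
    (h : ∀ x ∈ D, x ≠ 1 → ∃ U : Subgroup K, (U : Set K) ∈ 𝓝[D] 1 ∧ x ∉ U) : PF D := by
  intro N hN
  let T := {U : Subgroup K | (U : Set K) ∈ 𝓝[(D : Set K)] 1}
  have htop : ⊤ ∈ T := (univ_mem : univ ∈ 𝓝[(D : Set K)] 1)
  have hinf : ∀ a b, a ∈ T → b ∈ T → a ⊓ b ∈ T := fun a b ha hb =>
    (inter_mem ha hb : (a : Set K) ∩ b ∈ 𝓝[(D : Set K)] 1)
  obtain ⟨W, hW, hW'⟩ := hN.nss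
  obtain ⟨_, ⟨U, hU, rfl⟩, hUW⟩ := exists_subset_of_directed
    (S := (· ⊓ D) '' T) ⟨_, ⊤, htop, rfl⟩
    (by
      rintro _ ⟨a, ha, rfl⟩ _ ⟨b, hb, rfl⟩
      exact ⟨_, ⟨a ⊓ b, hinf a b ha hb, rfl⟩, inf_le_inf_right _ inf_le_left,
        inf_le_inf_right _ inf_le_right⟩)
    (by rintro _ ⟨a, ha, rfl⟩; exact isClosed_inf_of_nhds hD ha)
    (fun x hx => by
      by_contra hx1
      obtain ⟨U, hU, hxU⟩ := h x (hx _ ⟨⊤, htop, rfl⟩).2 hx1
      exact hxU (hx _ ⟨U, hU, rfl⟩).1) hW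
  filter_upwards [hU, self_mem_nhdsWithin] with y hy hyD
  exact hW' y trivial fun k => ⟨1, N.one_mem, by
    simpa using hUW ((U ⊓ D).pow_mem ⟨hy, hyD⟩ k)⟩

variable [T2Space K]

theorem exists_ker {g : K} (hg : g ≠ 1) : ∃ N, Ker N ∧ g ∉ N := by
  obtain ⟨V, _, _, _, σ, hσ, -, hg⟩ := peterWeyl hg
  exact ⟨σ.ker, Ker.of_hom hσ, hg⟩

theorem exists_ker_subset {W : Set K} (hW : W ∈ 𝓝 (1 : K)) :
    ∃ N : Subgroup K, Ker N ∧ (N : Set K) ⊆ W :=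
  exists_subset_of_directed (S := {N | Ker N}) ⟨⊤, ker_top⟩
    (fun P hP Q hQ => ⟨P ⊓ Q, Ker.inf hP hQ, inf_le_left, inf_le_right⟩) (fun _ h => Ker.isClosed h)
    (fun x hx => by
      by_contra h
      obtain ⟨N, hN, hx'⟩ := exists_ker h
      exact hx' (hx N hN)) hW

theorem exists_ker_disjoint {D : Subgroup K} (hD : (D : Set K).Finite) :
    ∃ N, Ker N ∧ N ⊓ D = ⊥ := by
  obtain ⟨N, hN, h⟩ := exists_ker_subset (W := ((D : Set K) \ {1})ᶜ)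
    ((hD.subset sdiff_subset).isClosed.isOpen_compl.mem_nhds (by simp))
  refine ⟨N, hN, eq_bot_iff.2 fun x hx => ?_⟩
  by_contra h1
  exact h hx.1 ⟨hx.2, h1⟩

theorem NSS.exists_ker {M D : Subgroup K} (h : NSS M D) (hD : (D : Set K).Finite) :
    ∃ N, Ker N ∧ N ⊓ M = ⊥ := by
  obtain ⟨W, hW, h⟩ := h
  obtain ⟨N, hN, hNW⟩ := exists_ker_subset hW
  obtain ⟨N', hN', h'⟩ := exists_ker_disjoint hD
  refine ⟨N ⊓ N', hN.inf hN', eq_bot_iff.2 fun x hx => h'.le ⟨hx.1.2, h x hx.2 fun n => ?_⟩⟩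
  exact ⟨1, D.one_mem, by simpa using hNW (N.pow_mem hx.1.1 n)⟩

theorem PF.of_component {D : Subgroup K} (hD : IsClosed (D : Set K))
    (h : D ⊓ Subgroup.connectedComponentOfOne K = ⊥) : PF D := by
  have : CompactSpace D := isCompact_iff_compactSpace.1 hD.isCompact
  have : TotallyDisconnectedSpace D := by
    refine totallyDisconnectedSpace_iff_connectedComponent_one.2 (eq_singleton_iff_unique_mem.2
      ⟨mem_connectedComponent, fun x hx => Subtype.ext (h.le ⟨x.2, ?_⟩)⟩)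
    exact continuous_subtype_val.image_connectedComponent_subset (1 : D) ⟨x, hx, rfl⟩
  refine PF.of_small hD fun x hx hx1 => ?_
  obtain ⟨U, hU⟩ := ProfiniteGrp.exist_openNormalSubgroup_sub_open_nhds_of_one
    (U := {(⟨x, hx⟩ : D)}ᶜ) isOpen_compl_singleton fun h => hx1 (congrArg Subtype.val h).symm
  refine ⟨U.toSubgroup.map D.subtype, preimage_coe_mem_nhds_subtype.1 (mem_of_superset
    (U.isOpen.mem_nhds (x := (1 : D)) U.one_mem) fun y hy => Subgroup.mem_map_of_mem D.subtype hy), ?_⟩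
  rintro ⟨y, hy, rfl⟩
  exact hU hy rfl

omit [T2Space K] in
theorem metrizable_of_ker_bot (h : Ker (⊥ : Subgroup K)) : TopologicalSpace.MetrizableSpace K := by
  obtain ⟨φ, hφ⟩ := h.zero
  let F : C(K, C(K, ℝ)) := ContinuousMap.curry ⟨fun p : K × K => φ (p.2⁻¹ * p.1), by fun_prop⟩
  refine (F.continuous.isClosedEmbedding fun x y hxy => ?_).isEmbedding.metrizableSpace
  have h1 : φ (x⁻¹ * x) = φ (x⁻¹ * y) := DFunLike.congr_fun hxy x
  rw [inv_mul_cancel, (hφ 1).1 (Subgroup.one_mem _)] at h1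
  exact inv_mul_eq_one.1 ((hφ _).2 h1.symm)

/-- `M = Q (M ∩ P)` -/
def Prod (M Q P : Subgroup K) : Prop := ∀ x ∈ M, ∃ q ∈ Q, q⁻¹ * x ∈ P

omit [T2Space K] in
/-- maximal independent families -/
theorem exists_indep {M : Subgroup K} (hM : IsClosed (M : Set K)) (Ps : Set (Subgroup K))
    (hc : ∀ P ∈ Ps, IsClosed (P : Set K)) (hp : ∀ P ∈ Ps, ¬ M ≤ P)
    (hn : ∀ P ∈ Ps, ∀ x ∈ M, ∀ p ∈ M, p ∈ P → x⁻¹ * p * x ∈ P) :
    ∃ J ⊆ Ps, (∀ P ∈ Ps, ¬ Prod M (M ⊓ sInf J) P) ∧ (J.Finite ∨ ∃ P Q N : ℕ → Subgroup K,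
      (∀ n, P n ∈ Ps) ∧ (∀ n, ∃ I ⊆ Ps, Q n = M ⊓ sInf I) ∧ (∀ n, ∃ I ⊆ Ps, N n = M ⊓ sInf I) ∧
      Antitone N ∧ (∀ n, Q n ≤ N n) ∧ (∀ x, (∀ n, x ∈ N n) → x ∈ M ⊓ sInf J) ∧
      (∀ n, Prod M (Q n) (P n)) ∧ (∀ n, Q n ⊓ P n ≤ M ⊓ sInf J) ∧ ∀ n k, n ≠ k → Q n ≤ P k) := by
  obtain ⟨J, hJ⟩ := zorn_subset {J | J ⊆ Ps ∧ ∀ P ∈ J, Prod M (M ⊓ sInf (J \ {P})) P} (by
    intro c hc' hch
    refine ⟨⋃₀ c, ⟨sUnion_subset fun I hI => (hc' hI).1, ?_⟩, fun I hI => subset_sUnion_of_mem hI⟩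
    rintro P ⟨I₀, hI₀, hP⟩ x hx
    have : Nonempty {I // I ∈ c ∧ P ∈ I} := ⟨⟨I₀, hI₀, hP⟩⟩
    have hcl : ∀ I : {I // I ∈ c ∧ P ∈ I},
        IsClosed {q | q ∈ M ⊓ sInf (I.1 \ {P}) ∧ q⁻¹ * x ∈ P} := fun I =>
      (isClosed_inf_sInf hM fun R hR => hc R ((hc' I.2.1).1 hR.1)).inter
        ((hc P ((hc' hI₀).1 hP)).preimage (f := fun q => q⁻¹ * x) (by fun_prop))
    have hmono : ∀ I I' : Set (Subgroup K), I ⊆ I' →
        {q | q ∈ M ⊓ sInf (I' \ {P}) ∧ q⁻¹ * x ∈ P} ⊆ {q | q ∈ M ⊓ sInf (I \ {P}) ∧ q⁻¹ * x ∈ P} :=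
      fun I I' h q hq => ⟨inf_le_inf_left M (sInf_le_sInf (sdiff_subset_sdiff_left h)) hq.1, hq.2⟩
    obtain ⟨q, hq⟩ := IsCompact.nonempty_iInter_of_directed_nonempty_isCompact_isClosed _
      (fun I I' => (hch.total I.2.1 I'.2.1).elim (fun h => ⟨I', hmono _ _ h, Subset.rfl⟩)
        fun h => ⟨I, Subset.rfl, hmono _ _ h⟩) (fun I => (hc' I.2.1).2 P I.2.2 x hx)
      (fun I => (hcl I).isCompact) hcl
    have hq' := mem_iInter.1 hq
    refine ⟨q, ⟨(hq' ⟨I₀, hI₀, hP⟩).1.1, Subgroup.mem_sInf.2 ?_⟩, (hq' ⟨I₀, hI₀, hP⟩).2⟩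
    rintro R ⟨⟨I, hI, hR⟩, hRP⟩
    rcases hch.total hI₀ hI with h | h
    · exact Subgroup.mem_sInf.1 (hq' ⟨I, hI, h hP⟩).1.2 R ⟨hR, hRP⟩
    · exact Subgroup.mem_sInf.1 (hq' ⟨I₀, hI₀, hP⟩).1.2 R ⟨h hR, hRP⟩)
  refine ⟨J, hJ.1.1, fun P hP hprod => ?_, ?_⟩
  · have hPJ : P ∈ J := by
      refine hJ.2 (y := insert P J) ⟨insert_subset hP hJ.1.1, fun R hR x hx => ?_⟩
        (subset_insert _ _) (mem_insert _ _)
      rcases hR with rfl | hR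
      · obtain ⟨q, hq, hq'⟩ := hprod x hx
        exact ⟨q, inf_le_inf_left M (sInf_le_sInf (by simp)) hq, hq'⟩
      obtain ⟨q, hq, hq'⟩ := hJ.1.2 R hR x hx
      obtain ⟨d, hd, hd'⟩ := hprod q hq.1
      refine ⟨d⁻¹ * q, ⟨M.mul_mem (M.inv_mem hd.1) hq.1, Subgroup.mem_sInf.2 ?_⟩, ?_⟩
      · rintro R' ⟨rfl | h1, h2⟩
        · exact hd'
        · exact R'.mul_mem (R'.inv_mem (Subgroup.mem_sInf.1 hd.2 R' h1))
            (Subgroup.mem_sInf.1 hq.2 R' ⟨h1, h2⟩)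
      · have := R.mul_mem (hn R (hJ.1.1 hR) q hq.1 d hd.1 (Subgroup.mem_sInf.1 hd.2 R hR)) hq'
        simpa [mul_assoc] using this
    refine hp P hP fun x hx => ?_
    obtain ⟨q, hq, hq'⟩ := hprod x hx
    simpa using P.mul_mem (Subgroup.mem_sInf.1 hq.2 P hPJ) hq'
  refine (J.finite_or_infinite).imp_right fun hinf => ?_
  let P : ℕ → Subgroup K := fun n => hinf.natEmbedding J n
  have hP : ∀ n, P n ∈ J := fun n => (hinf.natEmbedding J n).2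
  have hPi : Function.Injective P := Subtype.val_injective.comp (hinf.natEmbedding J).injective
  refine ⟨P, fun n => M ⊓ sInf (J \ {P n}), fun n => M ⊓ sInf (J \ P '' Ici n),
    fun n => hJ.1.1 (hP n), fun n => ⟨_, sdiff_subset.trans hJ.1.1, rfl⟩,
    fun n => ⟨_, sdiff_subset.trans hJ.1.1, rfl⟩, fun n m h => inf_le_inf_left M (sInf_le_sInf
      (sdiff_subset_sdiff_right (image_mono (Ici_subset_Ici.2 h)))),
    fun n => inf_le_inf_left M (sInf_le_sInf (sdiff_subset_sdiff_right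
      (singleton_subset_iff.2 ⟨n, self_mem_Ici, rfl⟩))), fun x hx => ⟨(hx 0).1,
      Subgroup.mem_sInf.2 fun R hR => ?_⟩, fun n => hJ.1.2 _ (hP n),
    fun n x hx => ⟨hx.1.1, Subgroup.mem_sInf.2 fun R hR => ?_⟩,
    fun n k hnk => inf_le_right.trans (sInf_le ⟨hP k, fun h => hnk (hPi h).symm⟩)⟩
  · by_cases h : R ∈ range P
    · obtain ⟨k, rfl⟩ := h
      refine Subgroup.mem_sInf.1 (hx (k + 1)).2 _ ⟨hR, ?_⟩
      rintro ⟨j, hj, hjk⟩
      rw [hPi hjk] at hj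
      simp at hj
    · exact Subgroup.mem_sInf.1 (hx 0).2 _ ⟨hR, fun h' => h (image_subset_range _ _ h')⟩
  · by_cases h : R = P n
    · exact h ▸ hx.2
    · exact Subgroup.mem_sInf.1 hx.1.2 _ ⟨hR, h⟩

end Pool.Agent.Lib.CompactGroup
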