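import Mathlib

/-!
The Lie algebra of a closed subgroup of a compact group in a finite-dimensional representation.
-/

namespace Pool.Agent.Lib.CompactGroup

open Filter Topology Set
open scoped Pointwise

variable {K : Type*} [Group K] [TopologicalSpace K] [IsTopologicalGroup K] [CompactSpace K]
variable {A : Type*} [NormedRing A] [NormedAlgebra ℝ A] [CompleteSpace A]

/-- one-parameter groups -/
noncomputable def ex (X : A) (t : ℝ) : A := NormedSpace.exp (t • X)

omit [CompleteSpace A] in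
theorem ex_zero (X : A) : ex X 0 = 1 := by simp [ex]

theorem ex_add (X : A) (s t : ℝ) : ex X (s + t) = ex X s * ex X t := by
  let _ : NormedAlgebra ℚ A := .restrictScalars ℚ ℝ A
  rw [ex, add_smul, NormedSpace.exp_add_of_commute (((Commute.refl X).smul_left s).smul_right t)]
  rfl

theorem ex_pow (X : A) (s : ℝ) (n : ℕ) : ex X s ^ n = ex X (n * s) := by
  induction n with
  | zero => simp [ex_zero]
  | succ n ih => rw [pow_succ, ih, ← ex_add]; congr 1; push_cast; ring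

theorem hasDerivAt_ex (X : A) : HasDerivAt (ex X) X 0 := by
  have := hasDerivAt_exp_smul_const (𝕂 := ℝ) X 0
  rw [zero_smul, NormedSpace.exp_zero, one_mul] at this
  exact this

theorem hasDerivAt_ex_mul (X Y : A) : HasDerivAt (fun t => ex X t * ex Y t) (X + Y) 0 := by
  have := (hasDerivAt_ex X).mul (hasDerivAt_ex Y)
  rw [ex_zero, ex_zero, one_mul, mul_one] at this
  exact this

theorem continuous_ex (X : A) : Continuous (ex X) :=
  (differentiable_exp_smul_const ℝ X).continuous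

theorem ex_semiconj {u X Y : A} (h : SemiconjBy u X Y) (t : ℝ) :
    SemiconjBy u (ex X t) (ex Y t) := by
  let _ : NormedAlgebra ℚ A := .restrictScalars ℚ ℝ A
  exact (h.smul_right t).exp_right

omit [CompleteSpace A] in
theorem tendsto_slope {c : ℝ → A} {X : A} (hc : HasDerivAt c X 0) (h0 : c 0 = 1) {ι : Type*}
    {l : Filter ι} {ε : ι → ℝ} (hε : ∀ i, 0 < ε i) (hε0 : Tendsto ε l (𝓝 0)) :
    Tendsto (fun i => (ε i)⁻¹ • (c (ε i) - 1)) l (𝓝 X) := by
  have := (hasDerivAt_iff_tendsto_slope_zero.1 hc).comp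
    (tendsto_nhdsWithin_iff.2 ⟨hε0, Eventually.of_forall fun i => (hε i).ne'⟩)
  simpa [Function.comp_def, h0] using this

omit [NormedAlgebra ℝ A] [CompleteSpace A] in
theorem norm_pow_sub_pow {a b : A} {C C' : ℝ} {m : ℕ} (ha : ∀ j, ‖a ^ j‖ ≤ C)
    (hb : ∀ j ≤ m, ‖b ^ j‖ ≤ C') (j : ℕ) :
    ∀ k, j + k ≤ m → ‖a ^ j * b ^ k - b ^ (j + k)‖ ≤ j * (C * ‖a - b‖ * C') := by
  induction j with
  | zero => intro k _; simp
  | succ j ih =>
    intro k hk
    have h1 : a ^ (j + 1) * b ^ k - b ^ (j + 1 + k) =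
        a ^ j * (a - b) * b ^ k + (a ^ j * b ^ (k + 1) - b ^ (j + (k + 1))) := by
      rw [show j + 1 + k = j + (k + 1) by ring, pow_succ a, pow_succ' b k]
      noncomm_ring
    have hC : 0 ≤ C := (norm_nonneg _).trans (ha 0)
    have h2 : ‖a ^ j * (a - b) * b ^ k‖ ≤ C * ‖a - b‖ * C' :=
      (norm_mul_le _ _).trans (mul_le_mul ((norm_mul_le _ _).trans
        (mul_le_mul_of_nonneg_right (ha j) (norm_nonneg _))) (hb k (by omega)) (norm_nonneg _)
        (by positivity))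
    rw [h1]
    refine (norm_add_le _ _).trans ((add_le_add h2 (ih (k + 1) (by omega))).trans_eq ?_)
    push_cast; ring

variable {σ : K →* A}

omit [IsTopologicalGroup K] [NormedAlgebra ℝ A] [CompleteSpace A] in
theorem exists_norm_le (hσ : Continuous σ) : ∃ C, ∀ x, ‖σ x‖ ≤ C := by
  obtain ⟨C, hC⟩ := (isCompact_range hσ.norm).bddAbove
  exact ⟨C, fun x => hC ⟨x, rfl⟩⟩

omit [TopologicalSpace K] [IsTopologicalGroup K] [CompactSpace K] in
theorem ex_neg {X : A} {t : ℝ} {h : K} (hh : σ h = ex X t) : σ h⁻¹ = ex X (-t) := by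
  have : ex X t * ex X (-t) = 1 := by rw [← ex_add, add_neg_cancel, ex_zero]
  calc σ h⁻¹ = σ h⁻¹ * (ex X t * ex X (-t)) := by rw [this, mul_one]
    _ = ex X (-t) := by rw [← hh, ← mul_assoc, ← map_mul]; simp

omit [IsTopologicalGroup K] in
theorem ex_mem_of_tendsto (hσ : Continuous σ) {H : Subgroup K} (hH : IsClosed (H : Set K))
    {ι : Type*} {l : Filter ι} [l.NeBot] {h : ι → K} (hh : ∀ i, h i ∈ H) {ε : ι → ℝ}
    (hε : ∀ i, 0 < ε i) (hε0 : Tendsto ε l (𝓝 0)) {X : A}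
    (hX : Tendsto (fun i => (ε i)⁻¹ • (σ (h i) - 1)) l (𝓝 X)) (t : ℝ) : ex X t ∈ σ '' H := by
  wlog ht : 0 ≤ t generalizing t
  · obtain ⟨y, hy, hy'⟩ := this (-t) (by linarith)
    exact ⟨y⁻¹, H.inv_mem hy, by rw [ex_neg hy', neg_neg]⟩
  obtain ⟨C, hC⟩ := exists_norm_le hσ
  obtain ⟨C', hC'⟩ := (isCompact_Icc (a := 0) (b := t)).exists_bound_of_continuousOn
    (continuous_ex X).continuousOn
  have hC0 : 0 ≤ C := (norm_nonneg _).trans (hC 1)
  have hC0' : 0 ≤ C' := (norm_nonneg _).trans (hC' 0 ⟨le_rfl, ht⟩)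
  let m : ι → ℕ := fun i => ⌊t / ε i⌋₊
  have hm1 : ∀ i, m i * ε i ≤ t := fun i =>
    (le_div_iff₀ (hε i)).1 (Nat.floor_le (div_nonneg ht (hε i).le))
  have hm2 : ∀ i, t - ε i ≤ m i * ε i := fun i => by
    have := (div_lt_iff₀ (hε i)).1 (Nat.lt_floor_add_one (t / ε i))
    linarith
  have hm : Tendsto (fun i => m i * ε i) l (𝓝 t) :=
    tendsto_of_tendsto_of_tendsto_of_le_of_le (by simpa using hε0.const_sub t) tendsto_const_nhds
      hm2 hm1
  have hδ : Tendsto (fun i => ‖(ε i)⁻¹ • (σ (h i) - 1) - (ε i)⁻¹ • (ex X (ε i) - 1)‖) l (𝓝 0) := by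
    simpa using (hX.sub (tendsto_slope (hasDerivAt_ex X) (ex_zero X) hε hε0)).norm
  have h1 : Tendsto (fun i => σ (h i ^ m i) - ex X (m i * ε i)) l (𝓝 0) := by
    refine squeeze_zero_norm (fun i => ?_) (by simpa using hδ.const_mul (t * C * C'))
    have h2 := norm_pow_sub_pow (a := σ (h i)) (b := ex X (ε i)) (m := m i) (C' := C')
      (fun j => by rw [← map_pow]; exact hC _) (fun j hj => by
        rw [ex_pow]
        exact hC' _ ⟨by have := hε i; positivity,
          (mul_le_mul_of_nonneg_right (Nat.cast_le.2 hj) (hε i).le).trans (hm1 i)⟩) (m i) 0 le_rfl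
    rw [pow_zero, mul_one, add_zero, ex_pow, ← map_pow] at h2
    refine h2.trans ?_
    have h3 : ‖σ (h i) - ex X (ε i)‖ =
        ε i * ‖(ε i)⁻¹ • (σ (h i) - 1) - (ε i)⁻¹ • (ex X (ε i) - 1)‖ := by
      rw [← smul_sub, norm_smul, norm_inv, Real.norm_of_nonneg (hε i).le, ← mul_assoc,
        mul_inv_cancel₀ (hε i).ne', one_mul, sub_sub_sub_cancel_right]
    rw [h3]
    set d := ‖(ε i)⁻¹ • (σ (h i) - 1) - (ε i)⁻¹ • (ex X (ε i) - 1)‖
    have hd : 0 ≤ d := norm_nonneg _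
    calc m i * (C * (ε i * d) * C') = (m i * ε i) * (C * C' * d) := by ring
      _ ≤ t * (C * C' * d) := mul_le_mul_of_nonneg_right (hm1 i) (by positivity)
      _ = _ := by ring
  have h2 : Tendsto (fun i => σ (h i ^ m i)) l (𝓝 (ex X t)) := by
    simpa using h1.add (((continuous_ex X).tendsto t).comp hm)
  exact (hH.isCompact.image hσ).isClosed.mem_of_tendsto h2
    (Eventually.of_forall fun i => ⟨_, H.pow_mem (hh i) _, rfl⟩)

omit [IsTopologicalGroup K] in
theorem ex_mem_of_hasDerivAt (hσ : Continuous σ) {H : Subgroup K} (hH : IsClosed (H : Set K))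
    {c : ℝ → A} (hc : ∀ t, c t ∈ σ '' H) (h0 : c 0 = 1) {X : A} (hX : HasDerivAt c X 0) (t : ℝ) :
    ex X t ∈ σ '' H := by
  choose h hh hh' using hc
  have hε : ∀ n : ℕ, (0 : ℝ) < 1 / ((n : ℝ) + 1) := fun n => by positivity
  refine ex_mem_of_tendsto hσ hH (l := atTop) (h := fun n : ℕ => h (1 / ((n : ℝ) + 1)))
    (fun n => hh _) hε tendsto_one_div_add_atTop_nhds_zero_nat ?_ t
  simp only [hh']
  exact tendsto_slope hX h0 hε tendsto_one_div_add_atTop_nhds_zero_nat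

/-- the Lie algebra of the image of a closed subgroup -/
def lie (hσ : Continuous σ) {H : Subgroup K} (hH : IsClosed (H : Set K)) : Submodule ℝ A where
  carrier := {X | ∀ t, ex X t ∈ σ '' H}
  zero_mem' t := ⟨1, H.one_mem, by simp [ex]⟩
  smul_mem' s X hX t := by
    have := hX (t * s)
    simpa [ex, smul_smul] using this
  add_mem' := by
    intro X Y hX hY
    refine ex_mem_of_hasDerivAt hσ hH (c := fun t => ex X t * ex Y t) (fun t => ?_)
      (by simp [ex_zero]) ?_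
    · obtain ⟨x, hx, hx'⟩ := hX t
      obtain ⟨y, hy, hy'⟩ := hY t
      exact ⟨x * y, H.mul_mem hx hy, by rw [map_mul, hx', hy']⟩
    · exact hasDerivAt_ex_mul X Y

omit [TopologicalSpace K] [IsTopologicalGroup K] [CompactSpace K] in
theorem ex_conj (k : K) (X : A) (t : ℝ) : ex (σ k * X * σ k⁻¹) t = σ k * ex X t * σ k⁻¹ := by
  have h : SemiconjBy (σ k) X (σ k * X * σ k⁻¹) := by
    rw [SemiconjBy, mul_assoc (σ k * X), ← map_mul]; simp
  rw [(ex_semiconj h t).eq, mul_assoc (ex _ _), ← map_mul]; simp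

omit [IsTopologicalGroup K] in
theorem conj_mem_lie (hσ : Continuous σ) {H : Subgroup K} (hH : IsClosed (H : Set K)) {k : K}
    (hk : ∀ h ∈ H, k * h * k⁻¹ ∈ H) {X : A} (hX : X ∈ lie hσ hH) :
    σ k * X * σ k⁻¹ ∈ lie hσ hH := fun t => by
  obtain ⟨x, hx, hx'⟩ := hX t
  exact ⟨_, hk x hx, by rw [ex_conj, map_mul, map_mul, hx']⟩

omit [IsTopologicalGroup K] in
theorem conj_sub_mem_lie (hσ : Continuous σ) {R : Subgroup K} [hRn : R.Normal]
    (hR : IsClosed (R : Set K)) {r : K} (hr : r ∈ R) {Y : A} (hY : ∀ t, ex Y t ∈ range σ) :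
    σ r * Y * σ r⁻¹ - Y ∈ lie hσ hR := by
  refine ex_mem_of_hasDerivAt hσ hR (c := fun t => ex (σ r * Y * σ r⁻¹) t * ex (-Y) t)
    (fun t => ?_) (by simp [ex_zero]) ?_
  · obtain ⟨x, hx⟩ := hY t
    refine ⟨r * (x * r⁻¹ * x⁻¹), R.mul_mem hr (hRn.conj_mem _ (R.inv_mem hr) x), ?_⟩
    have : ex (-Y) t = ex Y (-t) := by simp [ex]
    rw [ex_conj, this, ← ex_neg hx, ← hx]
    simp [mul_assoc]
  · rw [sub_eq_add_neg]
    exact hasDerivAt_ex_mul _ _

variable [FiniteDimensional ℝ A]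

theorem exists_nhds_of_lie_le (hσ : Continuous σ) {H M : Subgroup K} (hH : IsClosed (H : Set K))
    (hM : IsClosed (M : Set K)) (hHM : H ≤ M) (hl : lie hσ hM ≤ lie hσ hH) :
    ∃ δ > 0, ∀ x ∈ M, ‖σ x - 1‖ < δ → σ x ∈ σ '' H := by
  by_contra hcon
  push Not at hcon
  have hpos : ∀ n : ℕ, (0 : ℝ) < 1 / ((n : ℝ) + 1) := fun n => by positivity
  choose x hxM hx1 hx2 using fun n : ℕ => hcon _ (hpos n)
  have hmin : ∀ n, ∃ p ∈ H, ∀ q ∈ H, ‖σ (x n * p⁻¹) - 1‖ ≤ ‖σ (x n * q⁻¹) - 1‖ := fun n =>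
    hH.isCompact.exists_isMinOn (f := fun p => ‖σ (x n * p⁻¹) - 1‖) ⟨1, H.one_mem⟩
      (Continuous.continuousOn (by fun_prop))
  choose p hp hp' using hmin
  let y : ℕ → K := fun n => x n * (p n)⁻¹
  let ε : ℕ → ℝ := fun n => ‖σ (y n) - 1‖
  have hε : ∀ n, 0 < ε n := fun n => by
    refine norm_pos_iff.2 fun h => hx2 n ⟨p n, hp n, ?_⟩
    rw [sub_eq_zero] at h
    rw [← one_mul (σ (p n)), ← h, ← map_mul]; simp [y]
  have hε0 : Tendsto ε atTop (𝓝 0) :=
    squeeze_zero (fun n => (hε n).le) (fun n => (hp' n 1 H.one_mem).trans (by simpa using (hx1 n).le))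
      tendsto_one_div_add_atTop_nhds_zero_nat
  have hu : ∀ n, (ε n)⁻¹ • (σ (y n) - 1) ∈ Metric.sphere (0 : A) 1 := fun n => by
    rw [mem_sphere_zero_iff_norm, norm_smul, norm_inv, Real.norm_of_nonneg (hε n).le]
    exact inv_mul_cancel₀ (hε n).ne'
  have : ProperSpace A := FiniteDimensional.proper ℝ A
  obtain ⟨X, -, φ, hφ, hX⟩ := (isCompact_sphere (0 : A) 1).tendsto_subseq hu
  have hεφ := hε0.comp hφ.tendsto_atTop
  have hXM : X ∈ lie hσ hM := ex_mem_of_tendsto hσ hM (h := fun n => y (φ n))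
    (fun n => M.mul_mem (hxM _) (M.inv_mem (hHM (hp _)))) (fun n => hε (φ n)) hεφ hX
  obtain ⟨C, hC⟩ := exists_norm_le hσ
  have hδ : Tendsto (fun n => ‖(ε (φ n))⁻¹ • (σ (y (φ n)) - 1) -
      (ε (φ n))⁻¹ • (ex X (ε (φ n)) - 1)‖ * C) atTop (𝓝 0) := by
    simpa using (hX.sub (tendsto_slope (hasDerivAt_ex X) (ex_zero X) (fun n => hε (φ n))
      hεφ)).norm.mul_const C
  refine absurd (ge_of_tendsto' hδ (b := 1) fun n => ?_) (by norm_num)
  generalize φ n = k
  obtain ⟨q, hq, hq'⟩ := hl hXM (ε k)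
  have h1 : ε k ≤ ‖σ (y k) - ex X (ε k)‖ * C := by
    refine (hp' k (q * p k) (H.mul_mem hq (hp k))).trans ?_
    have : σ (x k * (q * p k)⁻¹) - 1 = (σ (y k) - ex X (ε k)) * σ q⁻¹ := by
      rw [← hq', sub_mul, ← map_mul, ← map_mul]; simp [y, mul_assoc]
    rw [this]
    exact (norm_mul_le _ _).trans (mul_le_mul_of_nonneg_left (hC _) (norm_nonneg _))
  rw [← smul_sub, norm_smul, norm_inv, Real.norm_of_nonneg (hε k).le, sub_sub_sub_cancel_right,
    mul_assoc, ← div_eq_inv_mul, one_le_div (hε k)]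
  exact h1

omit [CompactSpace K] in
/-- a subgroup that is a neighbourhood of `1` in a preconnected subgroup is everything -/
theorem le_of_nhds {H M : Subgroup K} (hM : IsPreconnected (M : Set K)) {W : Set K}
    (hW : W ∈ 𝓝 (1 : K)) (hWH : ∀ x ∈ M, x ∈ W → x ∈ H) : M ≤ H := by
  have : PreconnectedSpace M := isPreconnected_iff_preconnectedSpace.1 hM
  have ho : IsOpen (H.subgroupOf M : Set M) := Subgroup.isOpen_of_mem_nhds _ (g := 1)
    (mem_of_superset (continuous_subtype_val.continuousAt.preimage_mem_nhds hW)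
      fun x hx => hWH x x.2 hx)
  have := IsClopen.eq_univ ⟨Subgroup.isClosed_of_isOpen _ ho, ho⟩ ⟨1, Subgroup.one_mem _⟩
  intro x hx
  have h : (⟨x, hx⟩ : M) ∈ (H.subgroupOf M : Set M) := this ▸ mem_univ _
  exact h

/-- A connected closed subgroup `M` is the product of a closed normal subgroup `R ≤ M` and of the
centraliser of the image of `R`. -/
theorem exists_mul_centralizer [T2Space K] (hσ : Continuous σ) (B : LinearMap.BilinForm ℝ A)
    (hBs : B.IsRefl) (hB0 : ∀ X, B X X = 0 → X = 0)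
    (hB : ∀ k X Y, B (σ k * X * σ k⁻¹) (σ k * Y * σ k⁻¹) = B X Y)
    {M R : Subgroup K} (hM : IsClosed (M : Set K)) (hMc : IsPreconnected (M : Set K))
    [hRn : R.Normal] (hR : IsClosed (R : Set K)) (hRM : R ≤ M) {x : K} (hx : x ∈ M) :
    ∃ r ∈ R, ∀ s ∈ R, Commute (σ (r⁻¹ * x)) (σ s) := by
  let C : Subgroup K :=
    { carrier := {y | y ∈ M ∧ ∀ s ∈ R, Commute (σ y) (σ s)}
      one_mem' := ⟨M.one_mem, fun s _ => by simp⟩
      mul_mem' := fun ha hb => ⟨M.mul_mem ha.1 hb.1, fun s hs => by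
        rw [map_mul]; exact (ha.2 s hs).mul_left (hb.2 s hs)⟩
      inv_mem' := fun {a} ha => ⟨M.inv_mem ha.1, fun s hs =>
        Commute.units_inv_left (u := σ.toHomUnits a) (ha.2 s hs)⟩ }
  have hC : IsClosed (C : Set K) := by
    have : (C : Set K) = (M : Set K) ∩ ⋂ s ∈ R, {y | σ y * σ s = σ s * σ y} := by
      ext y; simp [C, Commute, SemiconjBy]
    rw [this]
    exact hM.inter (isClosed_biInter fun s _ => isClosed_eq (by fun_prop) (by fun_prop))
  have hH : IsClosed ((R ⊔ C : Subgroup K) : Set K) := by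
    rw [Subgroup.normal_mul]
    exact (hR.isCompact.mul hC.isCompact).isClosed
  have hHM : R ⊔ C ≤ M := sup_le hRM fun y hy => hy.1
  have hcompl : IsCompl (lie hσ hR) (B.orthogonal (lie hσ hR)) :=
    (LinearMap.BilinForm.isCompl_orthogonal_iff_disjoint hBs).2
      (Submodule.disjoint_def.2 fun X h1 h2 => hB0 X (h2 X h1))
  have hl : lie hσ hM ≤ lie hσ hH := by
    intro Z hZ
    obtain ⟨X, hX, Y, hY, rfl⟩ := Submodule.mem_sup.1 (hcompl.sup_eq_top ▸ Submodule.mem_top (x := Z))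
    have hXM : X ∈ lie hσ hM := fun t => image_mono hRM (hX t)
    have hYM : Y ∈ lie hσ hM := by simpa using Submodule.sub_mem _ hZ hXM
    refine Submodule.add_mem _ (fun t => image_mono (le_sup_left (a := R) (b := C)) (hX t))
      fun t => ?_
    obtain ⟨y, hy, hy'⟩ := hYM t
    refine ⟨y, (le_sup_right (a := R) (b := C)) ⟨hy, fun s hs => ?_⟩, hy'⟩
    have h1 := conj_sub_mem_lie hσ hR hs fun t => image_subset_range _ _ (hYM t)
    have h2 : σ s * Y * σ s⁻¹ - Y ∈ B.orthogonal (lie hσ hR) := by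
      refine Submodule.sub_mem _ (fun U hU => ?_) hY
      have h3 := hY _ (conj_mem_lie hσ hR (k := s⁻¹) (fun h hh => hRn.conj_mem h hh _) hU)
      have h4 : σ s * (σ s⁻¹ * U * σ s⁻¹⁻¹) * σ s⁻¹ = U := by
        simp only [← mul_assoc, ← map_mul, mul_inv_cancel, map_one, one_mul]
        rw [mul_assoc, ← map_mul]; simp
      rw [← hB s, h4] at h3
      exact h3
    have h3 := sub_eq_zero.1 (Submodule.disjoint_def.1 hcompl.disjoint _ h1 h2)
    have h4 : SemiconjBy (σ s) Y Y := by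
      rw [SemiconjBy]
      nth_rewrite 2 [← h3]
      rw [mul_assoc (σ s * Y), ← map_mul]; simp
    rw [hy']
    exact (ex_semiconj h4 t).symm
  obtain ⟨δ, hδ, hδ'⟩ := exists_nhds_of_lie_le hσ hH hM hHM hl
  have hle : M ≤ R ⊔ C := by
    refine le_of_nhds hMc (W := {y | ‖σ y - 1‖ < δ})
      ((isOpen_lt (by fun_prop) continuous_const).mem_nhds (by simpa using hδ)) fun y hy hy' => ?_
    obtain ⟨z, hz, hz'⟩ := hδ' y hy hy'
    have h1 : z⁻¹ * y ∈ C := ⟨M.mul_mem (M.inv_mem (hHM hz)) hy, fun s _ => by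
      rw [map_mul, ← hz', ← map_mul]; simp⟩
    simpa using Subgroup.mul_mem _ hz ((le_sup_right (a := R) (b := C)) h1)
  have : x ∈ (R : Set K) * (C : Set K) := Subgroup.normal_mul R C ▸ hle hx
  obtain ⟨r, hr, c, hc, rfl⟩ := this
  exact ⟨r, hr, by simpa using hc.2⟩

end Pool.Agent.Lib.CompactGroup
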