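import Mathlib

/-!
The Peter-Weyl theorem in the form: finite-dimensional unitary representations separate the points
of a compact Hausdorff group.
-/

namespace Pool.Agent.Lib.CompactGroup

open MeasureTheory InnerProductSpace Module.End
open scoped InnerProductSpace

universe u

variable {K : Type u} [Group K] [TopologicalSpace K] [IsTopologicalGroup K] [CompactSpace K]

theorem exists_haar (K : Type u) [Group K] [TopologicalSpace K] [IsTopologicalGroup K]
    [CompactSpace K] [MeasurableSpace K] [BorelSpace K] :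
    ∃ μ : Measure K, IsProbabilityMeasure μ ∧ μ.IsHaarMeasure ∧ μ.Regular := by
  refine ⟨Measure.haarMeasure ⊤, ⟨?_⟩, inferInstance, inferInstance⟩
  simpa using Measure.haarMeasure_self (G := K) (K₀ := ⊤)

theorem exists_invariant {E : Type*} [NormedAddCommGroup E] [InnerProductSpace ℂ E]
    [CompleteSpace E] (π : K →* (E →L[ℂ] E)) (hiso : ∀ g v w, ⟪π g v, π g w⟫_ℂ = ⟪v, w⟫_ℂ)
    (hc : ∀ v, Continuous fun g => π g v) {g : K} {v : E} (hv : π g v ≠ v) :
    ∃ W : Submodule ℂ E, FiniteDimensional ℂ W ∧ (∀ x, ∀ w ∈ W, π x w ∈ W) ∧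
      ∃ w ∈ W, π g w ≠ w := by
  borelize K
  obtain ⟨μ, _, _, _⟩ := exists_haar K
  let F : K → E →L[ℂ] E := fun x => rankOne ℂ (π x v) (π x v)
  have hF : Continuous F := ((ContinuousLinearMap.smulRightL ℂ E E).continuous.comp
    ((innerSL ℂ).continuous.comp (hc v))).clm_apply (hc v)
  have hFi : Integrable F μ := hF.integrable_of_hasCompactSupport (HasCompactSupport.of_compactSpace _)
  let T : E →L[ℂ] E := ∫ x, F x ∂μ
  have hTc : IsCompactOperator T := by
    have : T ∈ {f : E →L[ℂ] E | IsCompactOperator f} := by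
      refine Convex.integral_mem ((compactOperator (RingHom.id ℂ) E E).restrictScalars ℝ).convex
        isClosed_setOfPred_isCompactOperator (Filter.Eventually.of_forall fun x => ?_) hFi
      exact (isCompactOperator_of_locallyCompactSpace_dom (innerSL ℂ (π x v))).clm_comp
        (ContinuousLinearMap.toSpanSingleton ℂ (π x v))
    exact this
  have hT : ∀ u w, ⟪u, T w⟫_ℂ = ∫ x, ⟪u, π x v⟫_ℂ * ⟪π x v, w⟫_ℂ ∂μ := by
    intro u w
    rw [ContinuousLinearMap.integral_apply hFi, ← integral_inner (hFi.apply_continuousLinearMap w)]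
    simp only [F, inner_right_rankOne_apply]
  have hTs : T.IsSymmetric := by
    intro u w
    change ⟪T u, w⟫_ℂ = ⟪u, T w⟫_ℂ
    rw [← inner_conj_symm, hT, hT, ← integral_conj]
    simp [mul_comm]
  have hinv : ∀ x u w, ⟪u, π x w⟫_ℂ = ⟪π x⁻¹ u, w⟫_ℂ := by
    intro x u w
    rw [← hiso x (π x⁻¹ u), ← mul_apply_eq_comp, ← map_mul]
    simp
  have hcomm : ∀ x w, T (π x w) = π x (T w) := by
    intro x w
    refine ext_inner_left ℂ fun u => ?_
    rw [hinv x u, hT, hT, ← integral_mul_left_eq_self _ x]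
    refine integral_congr_ae (Filter.Eventually.of_forall fun y => ?_)
    simp only [map_mul, mul_apply_eq_comp, hiso]
    rw [hinv]
  by_contra hcon
  push Not at hcon
  have hfix : ∀ c : ℂ, c ≠ 0 → ∀ e ∈ eigenspace T.toLinearMap c, π g e = e := by
    intro c hc0
    refine hcon _ (T.finite_dimensional_eigenspace hTc c hc0) fun x w hw => ?_
    rw [mem_eigenspace_iff] at hw ⊢
    change T w = _ at hw
    change T _ = _
    rw [hcomm, hw, map_smul]
  set w := π g⁻¹ v - v with hw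
  have hTw : T w = 0 := by
    have h1 := T.orthogonalComplement_iSup_eigenspaces_eq_bot hTc hTs
    rw [← Submodule.mem_bot ℂ, ← h1, ← Submodule.iInf_orthogonal, Submodule.mem_iInf]
    intro c e he
    have h2 : ⟪e, T w⟫_ℂ = ⟪T e, w⟫_ℂ := (hTs e w).symm
    have h3 : T e = c • e := mem_eigenspace_iff.1 he
    rw [h2, h3, inner_smul_left]
    by_cases hc0 : c = 0
    · simp [hc0]
    · rw [hw, inner_sub_right, hinv, inv_inv, hfix c hc0 e he]; simp
  have hz : ∀ x, ⟪π x v, w⟫_ℂ = 0 := by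
    have h1 : ∫ x, ‖⟪π x v, w⟫_ℂ‖ ^ 2 ∂μ = 0 := by
      have h2 := hT w w
      rw [hTw, inner_zero_right] at h2
      have h3 : ∀ x, ⟪w, π x v⟫_ℂ * ⟪π x v, w⟫_ℂ = ((‖⟪π x v, w⟫_ℂ‖ ^ 2 : ℝ) : ℂ) := by
        intro x
        rw [← inner_conj_symm w, Complex.conj_mul']; simp
      simp only [h3] at h2
      exact_mod_cast h2.symm
    have h2 : Continuous fun x => ‖⟪π x v, w⟫_ℂ‖ ^ 2 := ((hc v).inner continuous_const).norm.pow 2
    have h3 := (integral_eq_zero_iff_of_nonneg (fun x => by positivity)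
      (h2.integrable_of_hasCompactSupport (HasCompactSupport.of_compactSpace _))).1 h1
    intro x
    have := congrFun ((h2.ae_eq_iff_eq μ continuous_zero).1 h3) x
    simpa using this
  have h0 : w = 0 := by
    rw [← inner_self_eq_zero (𝕜 := ℂ)]
    nth_rewrite 1 [hw]
    have := hz 1
    rw [map_one, one_apply_eq_self] at this
    rw [inner_sub_left, hz, this, sub_zero]
  apply hv
  rw [hw, sub_eq_zero] at h0
  rw [← h0, ← mul_apply_eq_comp, ← map_mul, mul_inv_cancel, map_one,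
    one_apply_eq_self, h0]

/-- the restriction of a representation to an invariant subspace -/
noncomputable def restr {𝕜 H E : Type*} [NontriviallyNormedField 𝕜] [Monoid H]
    [NormedAddCommGroup E] [NormedSpace 𝕜 E] (π : H →* (E →L[𝕜] E)) (W : Submodule 𝕜 E)
    (hW : ∀ x, ∀ w ∈ W, π x w ∈ W) : H →* (W →L[𝕜] W) where
  toFun x := (π x).restrict (hW x)
  map_one' := by ext w; simp
  map_mul' x y := by ext w; simp

theorem restr_apply {𝕜 H E : Type*} [NontriviallyNormedField 𝕜] [Monoid H]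
    [NormedAddCommGroup E] [NormedSpace 𝕜 E] (π : H →* (E →L[𝕜] E)) (W : Submodule 𝕜 E)
    (hW : ∀ x, ∀ w ∈ W, π x w ∈ W) (x : H) (w : W) : (restr π W hW x w : E) = π x w := rfl

theorem continuous_restr {𝕜 H E : Type*} [NontriviallyNormedField 𝕜] [CompleteSpace 𝕜] [Monoid H]
    [TopologicalSpace H]
    [NormedAddCommGroup E] [NormedSpace 𝕜 E] (π : H →* (E →L[𝕜] E)) (W : Submodule 𝕜 E)
    [FiniteDimensional 𝕜 W]
    (hW : ∀ x, ∀ w ∈ W, π x w ∈ W) (hc : ∀ v, Continuous fun g => π g v) :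
    Continuous (restr π W hW) :=
  continuous_clm_apply.2 fun w => (hc w).subtype_mk _

/-- **Peter-Weyl**: finite-dimensional unitary representations separate points. -/
theorem peterWeyl [T2Space K] {g : K} (hg : g ≠ 1) :
    ∃ (V : Type u) (_ : NormedAddCommGroup V) (_ : InnerProductSpace ℂ V)
      (_ : FiniteDimensional ℂ V) (σ : K →* (V →L[ℂ] V)), Continuous σ ∧
      (∀ x v w, ⟪σ x v, σ x w⟫_ℂ = ⟪v, w⟫_ℂ) ∧ σ g ≠ 1 := by
  borelize K
  obtain ⟨μ, _, _, _⟩ := exists_haar K
  let L : K → Lp ℂ 2 μ →ₗᵢ[ℂ] Lp ℂ 2 μ := fun x =>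
    ⟨DistribSMul.toLinearMap ℂ _ (DomMulAct.mk x⁻¹), fun f => DomMulAct.norm_smul_Lp _ f⟩
  let π : K →* (Lp ℂ 2 μ →L[ℂ] Lp ℂ 2 μ) :=
    { toFun := fun x => (L x).toContinuousLinearMap
      map_one' := by
        ext1 f
        change DomMulAct.mk (1 : K)⁻¹ • f = f
        simp
      map_mul' := fun x y => by
        ext1 f
        change DomMulAct.mk (x * y)⁻¹ • f = DomMulAct.mk x⁻¹ • DomMulAct.mk y⁻¹ • f
        rw [mul_inv_rev, DomMulAct.mk_mul, mul_smul] }
  have hiso : ∀ x v w, ⟪π x v, π x w⟫_ℂ = ⟪v, w⟫_ℂ := fun x v w => (L x).inner_map_map v w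
  have : Fact ((2 : ENNReal) ≠ ⊤) := ⟨by simp⟩
  have hc : ∀ v, Continuous fun x => π x v := fun v =>
    (DomMulAct.continuous_mk.comp continuous_inv).smul continuous_const
  obtain ⟨φ, h0, h1, -⟩ := exists_continuous_zero_one_of_isClosed (isClosed_singleton (x := g))
    (isClosed_singleton (x := (1 : K))) (Set.disjoint_singleton.2 hg)
  let ψ : C(K, ℂ) := ⟨fun x => (φ x : ℂ), Complex.continuous_ofReal.comp φ.continuous⟩
  have hv : π g (ContinuousMap.toLp 2 μ ℂ ψ) ≠ ContinuousMap.toLp 2 μ ℂ ψ := by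
    intro h
    have h2 := DomMulAct.smul_Lp_ae_eq (DomMulAct.mk g⁻¹) (ContinuousMap.toLp 2 μ ℂ ψ)
    have h3 := ContinuousMap.coeFn_toLp (p := 2) (𝕜 := ℂ) μ ψ
    change π g _ =ᵐ[μ] _ at h2
    rw [h] at h2
    have h4 := (measurePreserving_mul_left μ g⁻¹).quasiMeasurePreserving.ae_eq_comp h3
    have h5 : (ψ : K → ℂ) =ᵐ[μ] fun x => ψ (g⁻¹ * x) := (h3.symm.trans h2).trans h4
    have h6 := congrFun ((ψ.continuous.ae_eq_iff_eq μ (by fun_prop)).1 h5) g
    have h7 := h0 (Set.mem_singleton g)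
    have h8 := h1 (Set.mem_singleton (1 : K))
    simp only [ψ, ContinuousMap.coe_mk, inv_mul_cancel, h7, h8] at h6
    simp at h6
  obtain ⟨W, _, hW, w, hw, hw'⟩ := exists_invariant π hiso hc hv
  refine ⟨W, inferInstance, inferInstance, inferInstance, restr π W hW,
    continuous_restr π W hW hc, fun x v w => hiso x v w, fun h => hw' ?_⟩
  have := restr_apply π W hW g ⟨w, hw⟩
  rw [h] at this
  exact this.symm

end Pool.Agent.Lib.CompactGroup
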