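import Pool.Agent.Lib.CompactGroup.PeterWeyl
import Pool.Agent.Lib.CompactGroup.Lie

/-!
Consequences of the Peter-Weyl theorem: complements of non-central normal subgroups in connected
compact groups, characters of compact abelian groups, closed subgroups of the circle, no small
subgroups and torsion elements in Banach algebras.
-/

namespace Pool.Agent.Lib.CompactGroup

open Filter Topology Set Module.End
open scoped InnerProductSpace

universe u

section
variable {K : Type*} [Group K] {V : Type*} [NormedAddCommGroup V] [InnerProductSpace ℂ V]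
  [FiniteDimensional ℂ V] {σ : K →* (V →L[ℂ] V)}

omit [FiniteDimensional ℂ V] in
theorem inner_rep (hu : ∀ x v w, ⟪σ x v, σ x w⟫_ℂ = ⟪v, w⟫_ℂ) (x : K) (v w : V) :
    ⟪σ x v, w⟫_ℂ = ⟪v, σ x⁻¹ w⟫_ℂ := by
  rw [← hu x v, ← mul_apply_eq_comp, ← map_mul]; simp

theorem exists_form (hu : ∀ x v w, ⟪σ x v, σ x w⟫_ℂ = ⟪v, w⟫_ℂ) :
    ∃ B : LinearMap.BilinForm ℝ (V →L[ℂ] V), B.IsRefl ∧ (∀ X, B X X = 0 → X = 0) ∧
      ∀ k X Y, B (σ k * X * σ k⁻¹) (σ k * Y * σ k⁻¹) = B X Y := by
  have := FiniteDimensional.complete ℂ V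
  let τ : (V →L[ℂ] V) →ₗ[ℂ] ℂ := (LinearMap.trace ℂ V).comp (ContinuousLinearMap.coeLM ℂ)
  have hτ : ∀ X Y, τ (X * Y) = τ (Y * X) := fun X Y =>
    LinearMap.trace_mul_comm ℂ X.toLinearMap Y.toLinearMap
  let b := stdOrthonormalBasis ℂ V
  have hsum : ∀ X Y : V →L[ℂ] V, τ (star X * Y) = ∑ i, ⟪X (b i), Y (b i)⟫_ℂ := fun X Y => by
    refine (LinearMap.trace_eq_sum_inner _ b).trans (Finset.sum_congr rfl fun i _ => ?_)
    exact ContinuousLinearMap.adjoint_inner_right X _ _
  have hstar : ∀ k, star (σ k) = σ k⁻¹ := fun k =>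
    ((ContinuousLinearMap.eq_adjoint_iff _ _).2 fun v w => by rw [inner_rep hu, inv_inv]).symm
  refine ⟨LinearMap.mk₂ ℝ (fun X Y => (τ (star X * Y)).re) ?_ ?_ ?_ ?_, ?_, ?_, ?_⟩
  · intro X X' Y; simp [add_mul]
  · intro c X Y
    simp only [hsum, Complex.re_sum, smul_eq_mul, Finset.mul_sum, smul_apply]
    refine Finset.sum_congr rfl fun i _ => ?_
    rw [← Complex.coe_smul, inner_smul_left]; simp
  · intro X Y Y'; simp [mul_add]
  · intro c X Y
    simp only [hsum, Complex.re_sum, smul_eq_mul, Finset.mul_sum, smul_apply]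
    refine Finset.sum_congr rfl fun i _ => ?_
    rw [← Complex.coe_smul, inner_smul_right]; simp
  · intro X Y h
    simp only [LinearMap.mk₂_apply, hsum, Complex.re_sum] at h ⊢
    rw [← h]
    exact Finset.sum_congr rfl fun i _ => inner_re_symm (𝕜 := ℂ) _ _
  · intro X h
    simp only [LinearMap.mk₂_apply, hsum, Complex.re_sum] at h
    have h1 := (Finset.sum_eq_zero_iff_of_nonneg fun i _ => inner_self_nonneg (𝕜 := ℂ)).1 h
    refine ContinuousLinearMap.coe_injective (b.toBasis.ext fun i => ?_)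
    have h2 := h1 i (Finset.mem_univ i)
    rw [inner_self_eq_norm_sq] at h2
    simpa using h2
  · intro k X Y
    simp only [LinearMap.mk₂_apply, star_mul, hstar, inv_inv]
    have : σ k * (star X * σ k⁻¹) * (σ k * Y * σ k⁻¹) = σ k * (star X * Y * σ k⁻¹) := by
      simp only [mul_assoc]
      rw [← mul_assoc (σ k⁻¹), ← map_mul]; simp
    rw [this, hτ, mul_assoc, ← map_mul]; simp

theorem exists_eigenvector (hu : ∀ x v w, ⟪σ x v, σ x w⟫_ℂ = ⟪v, w⟫_ℂ)
    (hc : ∀ a b : K, a * b = b * a) {g : K} (hg : σ g ≠ 1) :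
    ∃ w : V, σ g w ≠ w ∧ ∀ a, ∃ c : ℂ, σ a w = c • w := by
  let T : K × Bool → V →ₗ[ℂ] V := fun p =>
    if p.2 then (σ p.1 + σ p.1⁻¹).toLinearMap else (Complex.I • (σ p.1 - σ p.1⁻¹)).toLinearMap
  have hT : ∀ p, (T p).IsSymmetric := by
    rintro ⟨a, _ | _⟩ v w
    · simp [T, inner_smul_left, inner_smul_right, inner_sub_left, inner_sub_right, inner_rep hu]
      ring
    · simp [T, inner_add_left, inner_add_right, inner_rep hu, add_comm]
  have hcm : ∀ a b, Commute (σ a) (σ b) := fun a b => Commute.map (hc a b) σ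
  have hTc : Pairwise (Function.onFun Commute T) := by
    have h1 : ∀ a p, Commute (σ a).toLinearMap (T p) := by
      rintro a ⟨b, _ | _⟩
      · exact (((hcm a b).sub_right (hcm a b⁻¹)).smul_right Complex.I).map
          ContinuousLinearMap.toLinearMapRingHom
      · exact ((hcm a b).add_right (hcm a b⁻¹)).map ContinuousLinearMap.toLinearMapRingHom
    rintro ⟨a, _ | _⟩ p -
    · exact ((h1 a p).sub_left (h1 a⁻¹ p)).smul_left Complex.I
    · exact (h1 a p).add_left (h1 a⁻¹ p)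
  by_contra hcon
  push Not at hcon
  apply hg
  have htop := LinearMap.IsSymmetric.iSup_iInf_eq_top_of_commute hT hTc
  have : ⊤ ≤ LinearMap.ker (σ g - 1).toLinearMap := by
    rw [← htop]
    refine iSup_le fun χ w hw => ?_
    have hw' : ∀ p, T p w = χ p • w := fun p =>
      mem_eigenspace_iff.1 ((Submodule.mem_iInf _).1 hw p)
    by_contra h
    obtain ⟨a, ha⟩ := hcon w fun h' => h (by simp [h'])
    refine ha ((χ (a, true) - Complex.I * χ (a, false)) / 2) ?_
    have h1 : σ a w + σ a⁻¹ w = χ (a, true) • w := hw' (a, true)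
    have h2 : Complex.I • (σ a w - σ a⁻¹ w) = χ (a, false) • w := hw' (a, false)
    rw [div_eq_inv_mul, mul_smul, sub_smul, mul_smul, ← h1, ← h2, smul_smul, Complex.I_mul_I]
    module
  ext w
  have := this (Submodule.mem_top (x := w))
  simpa [sub_eq_zero] using this

end

variable {K : Type u} [Group K] [TopologicalSpace K] [IsTopologicalGroup K] [CompactSpace K]
  [T2Space K]

/-- Characters separate the points of a compact abelian group. -/
theorem exists_character (hc : ∀ a b : K, a * b = b * a) {g : K} (hg : g ≠ 1) :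
    ∃ χ : K →* Circle, Continuous χ ∧ χ g ≠ 1 := by
  obtain ⟨V, _, _, _, σ, hσ, hu, hg⟩ := peterWeyl hg
  obtain ⟨w, hw, hw'⟩ := exists_eigenvector hu hc hg
  have hw0 : w ≠ 0 := by rintro rfl; simp at hw
  have hww : ⟪w, w⟫_ℂ ≠ 0 := inner_self_ne_zero.2 hw0
  let c : K → ℂ := fun a => ⟪w, σ a w⟫_ℂ / ⟪w, w⟫_ℂ
  have hcw : ∀ a, σ a w = c a • w := fun a => by
    obtain ⟨d, hd⟩ := hw' a
    simp only [c]
    rw [hd, inner_smul_right, mul_div_cancel_right₀ _ hww]
  have hinj := smul_left_injective ℂ hw0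
  have hn : ∀ a, ‖c a‖ = 1 := fun a => by
    have h1 := hu a w w
    rw [hcw, inner_smul_left, inner_smul_right, ← mul_assoc, mul_eq_right₀ hww,
      Complex.conj_mul'] at h1
    have h2 : ‖c a‖ ^ 2 = 1 := by exact_mod_cast h1
    exact (pow_eq_one_iff_of_nonneg (norm_nonneg _) two_ne_zero).1 h2
  refine ⟨{ toFun := fun a => ⟨c a, mem_sphere_zero_iff_norm.2 (hn a)⟩
            map_one' := Circle.ext (hinj ?_)
            map_mul' := fun a b => Circle.ext (hinj ?_) }, ?_, fun h => hw ?_⟩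
  · change c 1 • w = (1 : ℂ) • w
    rw [← hcw]; simp
  · change c (a * b) • w = (c a * c b) • w
    rw [← hcw, map_mul, mul_apply_eq_comp, hcw b, map_smul, hcw, smul_smul, mul_comm]
  · exact Continuous.subtype_mk (by fun_prop) _
  · have : c g = 1 := congrArg Subtype.val h
    rw [hcw, this, one_smul]

/-- A closed subgroup of the circle is everything or has finite exponent. -/
theorem circle_subgroup {S : Subgroup Circle} (hS : IsClosed (S : Set Circle)) :
    S = ⊤ ∨ ∃ n : ℕ, 0 < n ∧ ∀ z ∈ S, z ^ n = 1 := by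
  let T : AddSubgroup ℝ := S.toAddSubgroup.comap Circle.expHom
  have hT : ∀ x, x ∈ T ↔ Circle.exp x ∈ S := fun x => Iff.rfl
  rcases T.dense_or_cyclic with h | ⟨a, ha⟩
  · left
    have hc : IsClosed (T : Set ℝ) := hS.preimage Circle.exp.continuous
    refine eq_top_iff.2 fun z _ => ?_
    obtain ⟨x, rfl⟩ := Circle.exp_surjective z
    have : x ∈ (T : Set ℝ) := hc.closure_eq ▸ h x
    exact this
  · right
    have h2 : 2 * Real.pi ∈ T := by rw [hT]; simp
    rw [ha, AddSubgroup.mem_closure_singleton] at h2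
    obtain ⟨n, hn⟩ := h2
    have hn0 : n ≠ 0 := by
      rintro rfl
      simp [Real.pi_ne_zero] at hn
    refine ⟨n.natAbs, Int.natAbs_pos.2 hn0, fun z hz => ?_⟩
    obtain ⟨x, rfl⟩ := Circle.exp_surjective z
    rw [← hT, ha, AddSubgroup.mem_closure_singleton] at hz
    obtain ⟨k, rfl⟩ := hz
    rw [pow_natAbs_eq_one, ← Circle.exp_zsmul, smul_comm, hn, Circle.exp_zsmul]; simp

/-- If a closed normal subgroup `R` of `K` lies in the connected closed subgroup `M` and is not
central in `M`, then `M = R (M ∩ ker f)` for a representation `f` that is not trivial on `M`. -/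
theorem exists_complement {M R : Subgroup K} (hM : IsClosed (M : Set K))
    (hMc : IsPreconnected (M : Set K)) [hRn : R.Normal] (hR : IsClosed (R : Set K)) (hRM : R ≤ M)
    {r x : K} (hr : r ∈ R) (hrx : r * x ≠ x * r) :
    ∃ (A : Type u) (_ : NormedRing A) (_ : NormedAlgebra ℝ A) (f : K →* A), Continuous f ∧
      (∀ y ∈ M, ∃ s ∈ R, f (s⁻¹ * y) = 1) ∧ f x ≠ 1 := by
  obtain ⟨V, _, _, _, σ, hσ, hu, hg⟩ := peterWeyl (g := r * x * (x * r)⁻¹)
    (by rwa [Ne, mul_inv_eq_one])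
  obtain ⟨B, hB1, hB2, hB3⟩ := exists_form hu
  have := FiniteDimensional.complete ℂ V
  have : FiniteDimensional ℝ (V →L[ℂ] V) := Module.Finite.trans ℂ _
  let π : K →* ((V →L[ℂ] V) →L[ℝ] (V →L[ℂ] V)) :=
    { toFun := fun k => ContinuousLinearMap.mulLeftRight ℝ _ (σ k) (σ k⁻¹)
      map_one' := by ext1; simp
      map_mul' := fun a b => by ext1; simp [mul_assoc] }
  have hπ : ∀ k X, π k X = σ k * X * σ k⁻¹ := fun k X => rfl
  let W := Submodule.span ℝ (σ '' R)
  have hW : ∀ k, ∀ X ∈ W, π k X ∈ W := by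
    intro k X hX
    refine (Submodule.span_le (p := W.comap (π k).toLinearMap)).2 ?_ hX
    rintro _ ⟨s, hs, rfl⟩
    exact Submodule.subset_span ⟨_, hRn.conj_mem s hs k, by simp [hπ]⟩
  refine ⟨W →L[ℝ] W, inferInstance, inferInstance, restr π W hW,
    continuous_restr π W hW fun X => by simp only [hπ]; fun_prop, fun y hy => ?_, fun h => hg ?_⟩
  · obtain ⟨s, hs, hs'⟩ := exists_mul_centralizer hσ B hB1 hB2 hB3 hM hMc hR hRM hy
    refine ⟨s, hs, ContinuousLinearMap.ext fun X => Subtype.ext ?_⟩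
    rw [restr_apply]
    refine (Submodule.span_le (p := LinearMap.eqLocus (π (s⁻¹ * y)).toLinearMap .id)).2 ?_ X.2
    rintro _ ⟨t, ht, rfl⟩
    change π _ _ = σ t
    rw [hπ, (hs' t ht).eq, mul_assoc, ← map_mul]; simp
  · have h1 := restr_apply π W hW x ⟨σ r, Submodule.subset_span ⟨r, hr, rfl⟩⟩
    rw [h, hπ] at h1
    change σ r = σ x * σ r * σ x⁻¹ at h1
    rw [map_mul, map_mul, h1]
    simp only [← map_mul]
    simp [mul_assoc]

section
variable {A : Type*} [NormedRing A] [NormedAlgebra ℝ A]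

theorem norm_sq_sub_one {y : A} (hy : ‖y - 1‖ ≤ 1 / 2) : 3 / 2 * ‖y - 1‖ ≤ ‖y ^ 2 - 1‖ := by
  have h1 : (2 : ℝ) • (y - 1) = (y ^ 2 - 1) - (y - 1) * (y - 1) := by
    rw [two_smul]; noncomm_ring
  have h2 := norm_sub_le (y ^ 2 - 1) ((y - 1) * (y - 1))
  rw [← h1, norm_smul, Real.norm_two] at h2
  have h3 := norm_mul_le (y - 1) (y - 1)
  nlinarith [norm_nonneg (y - 1)]

omit [NormedAlgebra ℝ A] in
theorem eq_one_of_le {y : A} {r : ℝ} {p : ℕ → Prop} (hp : ∃ᶠ n in atTop, p n)
    (h : ∀ n, p n → (3 / 2) ^ n * ‖y - 1‖ ≤ r) : y = 1 := by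
  by_contra hy
  have h1 : 0 < ‖y - 1‖ := norm_pos_iff.2 (sub_ne_zero.2 hy)
  obtain ⟨n, h2, h3⟩ := (hp.and_eventually (((tendsto_pow_atTop_atTop_of_one_lt
    (r := (3 / 2 : ℝ)) (by norm_num)).atTop_mul_const h1).eventually_gt_atTop r)).exists
  exact (h n h2).not_gt h3

/-- no small subgroups -/
theorem eq_one_of_pow {y : A} (h : ∀ n, ‖y ^ n - 1‖ ≤ 1 / 2) : y = 1 := by
  refine eq_one_of_le (r := 1 / 2) (p := fun _ => True) (Frequently.of_forall fun _ => trivial)
    fun n _ => le_trans ?_ (h (2 ^ n))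
  induction n with
  | zero => simp
  | succ n ih =>
    have := norm_sq_sub_one (h (2 ^ n))
    rw [← pow_mul, ← pow_succ] at this
    rw [pow_succ', mul_assoc]
    linarith

omit [T2Space K] in
/-- A nontrivial compact group of elements of a Banach algebra has nontrivial torsion. -/
theorem exists_torsion {f : K →* A} (hf : Continuous f) {g : K} (hg : f g ≠ 1) :
    ∃ a ∈ closure (Subgroup.zpowers g : Set K), f a ≠ 1 ∧ ∃ n, 0 < n ∧ f a ^ n = 1 := by
  by_contra hcon
  push Not at hcon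
  let S := closure (Subgroup.zpowers g : Set K) ∩ {a | 1 / 2 ≤ ‖f a - 1‖}
  have hS : IsCompact S := (isClosed_closure.inter (isClosed_le continuous_const
    (by fun_prop))).isCompact
  obtain ⟨r, hr, hr'⟩ : ∃ r > 0, ∀ a ∈ S, r ≤ ‖f a ^ 2 - 1‖ := by
    rcases S.eq_empty_or_nonempty with h | h
    · exact ⟨1, one_pos, by simp [h]⟩
    obtain ⟨a, ha, ha'⟩ := hS.exists_isMinOn (f := fun a => ‖f a ^ 2 - 1‖) h (by fun_prop)
    refine ⟨_, norm_pos_iff.2 (sub_ne_zero.2 (hcon a ha.1 (fun h => ?_) 2 two_pos)), ha'⟩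
    have := ha.2
    simp [h] at this
    linarith
  have key : ∀ n : ℕ, ∀ a ∈ Subgroup.zpowers g, ‖f a ^ 2 ^ n - 1‖ < r →
      (3 / 2) ^ n * ‖f a - 1‖ < r := by
    intro n
    induction n with
    | zero => intro a _ h; simpa using h
    | succ n ih =>
      intro a ha h
      have h1 := ih (a ^ 2) (Subgroup.pow_mem _ ha 2) (by rwa [map_pow, ← pow_mul, ← pow_succ'])
      rw [map_pow] at h1
      have h2 : (1 : ℝ) ≤ (3 / 2) ^ n := one_le_pow₀ (by norm_num)
      have h3 : ‖f a - 1‖ ≤ 1 / 2 := by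
        by_contra h3
        have := hr' a ⟨subset_closure ha, (not_le.1 h3).le⟩
        nlinarith [norm_nonneg (f a ^ 2 - 1)]
      have h4 := norm_sq_sub_one h3
      rw [pow_succ, mul_assoc]
      nlinarith
  obtain ⟨W, hW, hW'⟩ := exists_nhds_split_inv (s := {a : K | ‖f a - 1‖ < r})
    ((isOpen_lt (by fun_prop) continuous_const).mem_nhds (by simpa using hr))
  obtain ⟨t, ht⟩ := isCompact_univ.elim_nhds_subcover' (fun x _ => (fun y => y * x⁻¹) ⁻¹' W)
    fun x _ => (continuous_mul_const x⁻¹).continuousAt.preimage_mem_nhds (by simpa using hW)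
  have hd : ∀ n : ℕ, ∃ d ∈ Finset.Icc 1 t.card, ‖f (g ^ d) ^ 2 ^ n - 1‖ < r := by
    intro n
    have h1 : ∀ i : ℕ, ∃ x ∈ t, (g ^ i) ^ 2 ^ n * x.1⁻¹ ∈ W := fun i => by
      simpa using ht (mem_univ ((g ^ i) ^ 2 ^ n))
    choose x hx hx' using h1
    obtain ⟨i, hi, j, hj, hij, he⟩ := Finset.exists_ne_map_eq_of_card_lt_of_maps_to
      (s := Finset.range (t.card + 1)) (t := t) (f := x) (by simp) fun i _ => hx i
    wlog hlt : i < j generalizing i j
    · exact this j hj i hi hij.symm he.symm (by omega)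
    refine ⟨j - i, by simp at hj ⊢; omega, ?_⟩
    have h2 := hW' _ (hx' j) _ (hx' i)
    rw [he, mul_div_mul_right_eq_div, ← pow_mul, ← pow_mul, div_eq_mul_inv,
      ← pow_sub _ (Nat.mul_le_mul_right _ hlt.le), ← Nat.sub_mul, pow_mul] at h2
    simpa using h2
  obtain ⟨d, hd1, hd2⟩ : ∃ d ∈ Finset.Icc 1 t.card, ∃ᶠ n in atTop, ‖f (g ^ d) ^ 2 ^ n - 1‖ < r :=
    (frequently_exists_finset _).1 (Frequently.of_forall hd)
  have := eq_one_of_le hd2 fun n hn => (key n _ (Subgroup.npow_mem_zpowers g d) hn).le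
  exact hcon g (subset_closure (Subgroup.mem_zpowers g)) hg d (Finset.mem_Icc.1 hd1).1
    (by rw [← map_pow, this])

end

end Pool.Agent.Lib.CompactGroup
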